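import Pool.Agent.helper7.AL.SpecM

/-!
# Project DK (MP_bf63dc_nt): the clusters, all elements divisible by `s`
-/

set_option autoImplicit false

namespace Pool.Agent.DK

open Finset Pool.Agent.helper85.FC Pool.Agent.AL

/-- for every `s`, `L` there are two families of `L` multiples of `s` such that no difference `z 1 j - z 0 i` is infinitely often a difference of primes -/
def CLU_stmt : Prop := ∀ s L : ℕ, 1 ≤ s → 1 ≤ L → ∃ z : Fin 2 → Fin L → ℤ, (∀ t, Function.Injective (z t)) ∧ (∀ t i, (s : ℤ) ∣ z t i) ∧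
  ∀ i j, z 1 j - z 0 i ≠ 0 ∧ ¬ TrueCase 1 1 (z 1 j - z 0 i) ∧ ¬ TrueCase 1 1 (z 0 i - z 1 j)

theorem CLU_symm {a b : ℕ} {c : ℤ} (h : TrueCase a b c) : TrueCase b a (-c) := by
  obtain ⟨ha, hb, hc, hab, hac, hbc, hodd, hinf⟩ := h
  refine ⟨hb, ha, neg_ne_zero.2 hc, hab.symm, hbc.neg_right, hac.neg_right, ?_, ?_⟩
  · rintro ⟨h1, h2, h3⟩
    exact hodd ⟨h2, h1, by simpa using h3⟩
  · have h1 := hinf.image (f := Prod.swap) (Prod.swap_injective.injOn)
    refine h1.mono ?_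
    rintro _ ⟨⟨p, q⟩, ⟨hp, hq, hpq⟩, rfl⟩
    refine ⟨hq, hp, ?_⟩
    simp only [Prod.fst_swap, Prod.snd_swap] at hpq ⊢
    linarith

theorem CLU_sym (c : ℤ) (h : TrueCase 1 1 c) : TrueCase 1 1 (-c) := CLU_symm h

theorem CLU (h : ∀ m K : ℕ, 1 ≤ m → 1 ≤ K → ¬ TCM m K) : CLU_stmt := by
  classical
  intro s L hs hL
  have h1 := h s L hs hL
  unfold TCM at h1
  push Not at h1
  obtain ⟨X, Y, hX, hY, hXY, hbad⟩ := h1
  let eX := Finset.equivFinOfCardEq hX
  let eY := Finset.equivFinOfCardEq hY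
  have hx0 : ∃ x₀, x₀ ∈ X := by
    have : X.Nonempty := by
      rw [← card_pos, hX]
      exact hL
    exact this
  have hy0 : ∃ y₀, y₀ ∈ Y := by
    have : Y.Nonempty := by
      rw [← card_pos, hY]
      exact hL
    exact this
  obtain ⟨x₀, hx₀⟩ := hx0
  obtain ⟨y₀, hy₀⟩ := hy0
  have hd : ∀ x ∈ X, ∀ y ∈ Y, (s : ℤ) ∣ y - x := by
    intro x hx y hy
    refine dvd_trans ?_ (hXY x hx y hy).2
    push_cast
    exact dvd_mul_left _ _
  have hdX : ∀ x ∈ X, (s : ℤ) ∣ x - x₀ := by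
    intro x hx
    have h2 := dvd_sub (hd x₀ hx₀ y₀ hy₀) (hd x hx y₀ hy₀)
    have e : y₀ - x₀ - (y₀ - x) = x - x₀ := by ring
    rwa [e] at h2
  have hdY : ∀ y ∈ Y, (s : ℤ) ∣ y - x₀ := fun y hy => hd x₀ hx₀ y hy
  refine ⟨fun t i => if t = 0 then ((eX.symm i : ↥X) : ℤ) - x₀ else ((eY.symm i : ↥Y) : ℤ) - x₀, ?_, ?_, ?_⟩
  · intro t i i' hii
    by_cases ht : t = 0
    · simp only [ht, if_true] at hii
      exact eX.symm.injective (Subtype.ext (by linarith))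
    · simp only [ht, if_false] at hii
      exact eY.symm.injective (Subtype.ext (by linarith))
  · intro t i
    by_cases ht : t = 0
    · simp only [ht, if_true]
      exact hdX _ (eX.symm i).2
    · simp only [ht, if_false]
      exact hdY _ (eY.symm i).2
  · intro i j
    have e : (if (1 : Fin 2) = 0 then ((eX.symm j : ↥X) : ℤ) - x₀ else ((eY.symm j : ↥Y) : ℤ) - x₀) -
        (if (0 : Fin 2) = 0 then ((eX.symm i : ↥X) : ℤ) - x₀ else ((eY.symm i : ↥Y) : ℤ) - x₀) = ((eY.symm j : ↥Y) : ℤ) - ((eX.symm i : ↥X) : ℤ) := by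
      rw [if_neg (by decide), if_pos rfl]
      ring
    have h2 := (hXY _ (eX.symm i).2 _ (eY.symm j).2).1
    have h3 := hbad _ (eX.symm i).2 _ (eY.symm j).2
    have e' : (if (0 : Fin 2) = 0 then ((eX.symm i : ↥X) : ℤ) - x₀ else ((eY.symm i : ↥Y) : ℤ) - x₀) -
        (if (1 : Fin 2) = 0 then ((eX.symm j : ↥X) : ℤ) - x₀ else ((eY.symm j : ↥Y) : ℤ) - x₀) = -(((eY.symm j : ↥Y) : ℤ) - ((eX.symm i : ↥X) : ℤ)) := by
      rw [if_pos rfl, if_neg (by decide)]
      ring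
    refine ⟨?_, ?_, ?_⟩
    · rw [e]
      intro h0
      exact h2 (by linarith)
    · rw [e]
      exact h3
    · rw [e']
      intro h4
      have h5 := CLU_sym _ h4
      rw [neg_neg] at h5
      exact h3 h5

end Pool.Agent.DK
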