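import Pool.Agent.helper76.DK.Defs

/-!
# Project HF, row FCA: the main step of the fractional clique lemma
-/

set_option autoImplicit false

namespace Pool.Agent.DK

open Finset
open Pool.Agent.HF (Wb Om Av vl CND_stmt BES_stmt)

/-! ## averages -/

theorem FCA_mono {Ω : Type} [Fintype Ω] (f h : Ω → ℝ) (hfh : ∀ ω, f ω ≤ h ω) : Av f ≤ Av h := by
  unfold Av
  exact div_le_div_of_nonneg_right (sum_le_sum fun ω _ => hfh ω) (by positivity)

theorem FCA_sum {Ω ι : Type} [Fintype Ω] (s : Finset ι) (f : ι → Ω → ℝ) :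
    Av (fun ω => ∑ i ∈ s, f i ω) = ∑ i ∈ s, Av (f i) := by
  unfold Av
  rw [sum_comm, sum_div]

theorem FCA_div {Ω : Type} [Fintype Ω] (f : Ω → ℝ) (c : ℝ) : Av (fun ω => f ω / c) = Av f / c := by
  unfold Av
  rw [← sum_div, div_div, div_div, mul_comm]

theorem FCA_sub {Ω : Type} [Fintype Ω] (f h : Ω → ℝ) : Av (fun ω => f ω - h ω) = Av f - Av h := by
  unfold Av
  rw [sum_sub_distrib, sub_div]

theorem FCA_nonneg {Ω : Type} [Fintype Ω] (f : Ω → ℝ) (hf : ∀ ω, 0 ≤ f ω) : 0 ≤ Av f := by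
  unfold Av
  exact div_nonneg (sum_nonneg fun ω _ => hf ω) (by positivity)

theorem FCA_le_one {Ω : Type} [Fintype Ω] (f : Ω → ℝ) (hf : ∀ ω, f ω ≤ 1) : Av f ≤ 1 := by
  unfold Av
  refine div_le_one_of_le₀ ?_ (by positivity)
  calc ∑ ω, f ω ≤ ∑ _ω : Ω, (1 : ℝ) := sum_le_sum fun ω _ => hf ω
    _ = Fintype.card Ω := by simp

theorem FCA_cs {Ω : Type} [Fintype Ω] (f : Ω → ℝ) : Av f ≤ Real.sqrt (Av fun ω => f ω ^ 2) := by
  refine Real.le_sqrt_of_sq_le ?_
  unfold Av
  by_cases hc : Fintype.card Ω = 0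
  · rw [hc]; simp
  · have hc0 : (0 : ℝ) < Fintype.card Ω := by exact_mod_cast Nat.pos_of_ne_zero hc
    have h1 : (∑ ω, f ω) ^ 2 ≤ (Fintype.card Ω : ℝ) * ∑ ω, f ω ^ 2 := by
      have := sq_sum_le_card_mul_sum_sq (s := (univ : Finset Ω)) (f := f)
      simpa using this
    rw [div_pow, div_le_div_iff₀ (by positivity) hc0]
    nlinarith

/-- the average over a sample point of a function of one coordinate -/
theorem FCA_W (b R : ℕ) (hR : 1 ≤ R) (β : Fin b) (F : Fin R → ℝ) :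
    Av (fun w : Wb b R => F (w β)) = (∑ u, F u) / R := by
  classical
  have : Nonempty (Fin R) := ⟨⟨0, hR⟩⟩
  unfold Av
  have h1 : ∑ w : Wb b R, F (w β) = ∑ p : Fin R × ({j : Fin b // j ≠ β} → Fin R), F p.1 :=
    Fintype.sum_equiv (Equiv.funSplitAt β (Fin R)) _ _ fun w => rfl
  have h2 : Fintype.card (Wb b R) = Fintype.card (Fin R × ({j : Fin b // j ≠ β} → Fin R)) :=
    Fintype.card_congr (Equiv.funSplitAt β (Fin R))
  rw [h1, h2, Fintype.sum_prod_type, Fintype.card_prod, Fintype.card_fin]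
  simp only [sum_const, card_univ, nsmul_eq_mul]
  rw [← mul_sum, Nat.cast_mul, mul_comm (R : ℝ)]
  have h3 : (0 : ℝ) < (Fintype.card ({j : Fin b // j ≠ β} → Fin R) : ℝ) := by
    exact_mod_cast Fintype.card_pos
  rw [mul_div_mul_left _ _ h3.ne']

section main

variable {n b c R r : ℕ} (π : Fin b → Fin c) (X : Om n c R → Fin n → Fin b → Bool) (E : Fin b → Fin b → Fin R → Fin R → Prop)
  (g : Fin r → Fin n)

/-- the information with given labels -/
def FCA_J (g : Fin r → Fin n) (ω : Om n c R) (k : Fin r → Fin b → Bool) : Cp r c b R := fun l => (ω (g l), k l)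

open Classical in
/-- `1` if `u`, `v` are not adjacent -/
noncomputable def FCA_N (E : Fin b → Fin b → Fin R → Fin R → Prop) (β β' : Fin b) (u v : Fin R) : ℝ := if E β β' u v then 0 else 1

/-- the function `G` -/
noncomputable def FCA_G (β β' : Fin b) (c : Cp r c b R) (v : Fin R) : ℝ := (∑ u, ab π X g c β u * FCA_N E β β' u v) / R

theorem FCA_N0 (β β' : Fin b) (u v : Fin R) : 0 ≤ FCA_N E β β' u v ∧ FCA_N E β β' u v ≤ 1 := by
  unfold FCA_N
  split_ifs <;> norm_num

theorem FCA_lb (h : Fin n) (β : Fin b) (ω : Om n c R) : 0 ≤ lb X h β ω ∧ lb X h β ω ≤ 1 := by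
  unfold lb
  split_ifs <;> norm_num

theorem FCA_y1 (hC : CND_stmt) (h : Fin n) (β : Fin b) (c : Cp r c b R × Fin R) : 0 ≤ y1 π X g h β c ∧ y1 π X g h β c ≤ 1 :=
  hC.1 _ _ _ _ (FCA_lb X h β) c

theorem FCA_ab (hC : CND_stmt) (hn : 1 ≤ n) (c : Cp r c b R) (β : Fin b) (u : Fin R) : 0 ≤ ab π X g c β u ∧ ab π X g c β u ≤ 1 := by
  have hn0 : (0 : ℝ) < n := by exact_mod_cast hn
  unfold ab
  refine ⟨div_nonneg (sum_nonneg fun h _ => (FCA_y1 π X g hC h β _).1) hn0.le, (div_le_one hn0).2 ?_⟩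
  calc ∑ h, y1 π X g h β (c, u) ≤ ∑ _h : Fin n, (1 : ℝ) := sum_le_sum fun h _ => (FCA_y1 π X g hC h β _).2
    _ = n := by simp

theorem FCA_G0 (hC : CND_stmt) (hn : 1 ≤ n) (hR : 1 ≤ R) (β β' : Fin b) (c : Cp r c b R) (v : Fin R) :
    0 ≤ FCA_G π X E g β β' c v ∧ FCA_G π X E g β β' c v ≤ 1 := by
  have hR0 : (0 : ℝ) < R := by exact_mod_cast hR
  have h1 : ∀ u, 0 ≤ ab π X g c β u * FCA_N E β β' u v ∧ ab π X g c β u * FCA_N E β β' u v ≤ 1 := fun u => by
    obtain ⟨h1, h2⟩ := FCA_ab π X g hC hn c β u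
    obtain ⟨h3, h4⟩ := FCA_N0 E β β' u v
    exact ⟨mul_nonneg h1 h3, mul_le_one₀ h2 h3 h4⟩
  unfold FCA_G
  refine ⟨div_nonneg (sum_nonneg fun u _ => (h1 u).1) hR0.le, (div_le_one hR0).2 ?_⟩
  calc ∑ u, ab π X g c β u * FCA_N E β β' u v ≤ ∑ _u : Fin R, (1 : ℝ) := sum_le_sum fun u _ => (h1 u).2
    _ = R := by simp

/-- step (1) -/
theorem FCA_s1 (hC : CND_stmt) (hE : ∀ ω h h' β β', h ≠ h' → π β ≠ π β' → X ω h β = true → X ω h' β' = true →
      E β β' (ω h (π β)) (ω h' (π β'))) (β β' : Fin b) (hβ : π β ≠ π β') (h h' : Fin n) :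
    Av (fun ω => lb X h' β' ω * (y1 π X g h β (inf X g ω, ω h (π β)) * FCA_N E β β' (ω h (π β)) (ω h' (π β')))) ≤
      (if h = h' then 1 else 0) +
        Real.sqrt (Av fun ω => (y2 π X g h' h β (inf X g ω, (ω h', X ω h'), ω h (π β)) - y1 π X g h β (inf X g ω, ω h (π β))) ^ 2) := by
  classical
  obtain ⟨-, hC2, -⟩ := hC
  -- the function of the information
  set G₁ : Cp r c b R × (Wb c R × (Fin b → Bool)) × Fin R → ℝ := fun k =>
    (if k.2.1.2 β' = true then 1 else 0) * FCA_N E β β' k.2.2 (k.2.1.1 (π β')) with hG₁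
  have h1 : Av (fun ω => lb X h β ω * (lb X h' β' ω * FCA_N E β β' (ω h (π β)) (ω h' (π β')))) =
      Av (fun ω => y2 π X g h' h β (inf X g ω, (ω h', X ω h'), ω h (π β)) *
        (lb X h' β' ω * FCA_N E β β' (ω h (π β)) (ω h' (π β')))) := by
    have := hC2 (Om n c R) (Cp r c b R × (Wb c R × (Fin b → Bool)) × Fin R)
      (fun ω => (inf X g ω, (ω h', X ω h'), ω h (π β))) (lb X h β) G₁
    exact this
  have h2 : Av (fun ω => lb X h β ω * (lb X h' β' ω * FCA_N E β β' (ω h (π β)) (ω h' (π β')))) ≤ (if h = h' then 1 else 0) := by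
    by_cases hh : h = h'
    · rw [if_pos hh]
      refine FCA_le_one _ fun ω => ?_
      obtain ⟨a1, a2⟩ := FCA_lb X h β ω
      obtain ⟨a3, a4⟩ := FCA_lb X h' β' ω
      obtain ⟨a5, a6⟩ := FCA_N0 E β β' (ω h (π β)) (ω h' (π β'))
      exact mul_le_one₀ a2 (mul_nonneg a3 a5) (mul_le_one₀ a4 a5 a6)
    · rw [if_neg hh]
      refine le_of_eq ?_
      have h3 : ∀ ω, lb X h β ω * (lb X h' β' ω * FCA_N E β β' (ω h (π β)) (ω h' (π β'))) = 0 := fun ω => by
        unfold lb FCA_N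
        by_cases a : X ω h β = true
        · by_cases a' : X ω h' β' = true
          · rw [if_pos (hE ω h h' β β' hh hβ a a')]; simp
          · rw [if_neg a']; simp
        · rw [if_neg a]; simp
      simp only [h3]
      unfold Av
      simp
  have h4 : Av (fun ω => lb X h' β' ω * (y1 π X g h β (inf X g ω, ω h (π β)) * FCA_N E β β' (ω h (π β)) (ω h' (π β')))) -
      Av (fun ω => y2 π X g h' h β (inf X g ω, (ω h', X ω h'), ω h (π β)) *
        (lb X h' β' ω * FCA_N E β β' (ω h (π β)) (ω h' (π β')))) ≤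
      Real.sqrt (Av fun ω => (y2 π X g h' h β (inf X g ω, (ω h', X ω h'), ω h (π β)) - y1 π X g h β (inf X g ω, ω h (π β))) ^ 2) := by
    rw [← FCA_sub]
    refine (FCA_mono _ (fun ω => |y2 π X g h' h β (inf X g ω, (ω h', X ω h'), ω h (π β)) - y1 π X g h β (inf X g ω, ω h (π β))|) fun ω => ?_).trans ?_
    · obtain ⟨a3, a4⟩ := FCA_lb X h' β' ω
      obtain ⟨a5, a6⟩ := FCA_N0 E β β' (ω h (π β)) (ω h' (π β'))
      have a7 : 0 ≤ lb X h' β' ω * FCA_N E β β' (ω h (π β)) (ω h' (π β')) := mul_nonneg a3 a5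
      have a8 : lb X h' β' ω * FCA_N E β β' (ω h (π β)) (ω h' (π β')) ≤ 1 := mul_le_one₀ a4 a5 a6
      have a9 : lb X h' β' ω * (y1 π X g h β (inf X g ω, ω h (π β)) * FCA_N E β β' (ω h (π β)) (ω h' (π β'))) -
          y2 π X g h' h β (inf X g ω, (ω h', X ω h'), ω h (π β)) * (lb X h' β' ω * FCA_N E β β' (ω h (π β)) (ω h' (π β'))) =
          (lb X h' β' ω * FCA_N E β β' (ω h (π β)) (ω h' (π β'))) *
            -(y2 π X g h' h β (inf X g ω, (ω h', X ω h'), ω h (π β)) - y1 π X g h β (inf X g ω, ω h (π β))) := by ring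
      rw [a9]
      refine (le_abs_self _).trans ?_
      rw [abs_mul, abs_neg, abs_of_nonneg a7]
      exact mul_le_of_le_one_left (abs_nonneg _) a8
    · refine (FCA_cs _).trans (le_of_eq ?_)
      simp only [sq_abs]
  linarith

/-- step (2) -/
theorem FCA_s2 (hC : CND_stmt) (hB : BES_stmt) (hn : 1 ≤ n) (hR : 1 ≤ R) (β β' : Fin b) (h' : Fin n) :
    ∑ h, Av (fun ω => lb X h' β' ω * ((∑ u, y1 π X g h β (inf X g ω, u) * FCA_N E β β' u (ω h' (π β'))) / R)) ≤
      ∑ h, Av (fun ω => lb X h' β' ω * (y1 π X g h β (inf X g ω, ω h (π β)) * FCA_N E β β' (ω h (π β)) (ω h' (π β')))) +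
        (Real.sqrt (n * 2 ^ (b * (r + 1))) + 2 * (r + 1)) := by
  classical
  have : Nonempty (Fin R) := ⟨⟨0, hR⟩⟩
  have hBB := hB n (Wb c R) ((Fin r → Fin b → Bool) × (Fin b → Bool)) (fun ω => (fun l => X ω (g l), X ω h'))
    (insert h' (univ.image g)) (fun h ω k w => (if k.2 β' = true then 1 else 0) *
      (y1 π X g h β (FCA_J g ω k.1, w (π β)) * FCA_N E β β' (w (π β)) (ω h' (π β'))))
    (fun h ω k w => by
      obtain ⟨a1, a2⟩ := FCA_y1 π X g hC h β (FCA_J g ω k.1, w (π β))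
      obtain ⟨a3, a4⟩ := FCA_N0 E β β' (w (π β)) (ω h' (π β'))
      have a5 : 0 ≤ y1 π X g h β (FCA_J g ω k.1, w (π β)) * FCA_N E β β' (w (π β)) (ω h' (π β')) := mul_nonneg a1 a3
      have a6 : y1 π X g h β (FCA_J g ω k.1, w (π β)) * FCA_N E β β' (w (π β)) (ω h' (π β')) ≤ 1 := mul_le_one₀ a2 a3 a4
      split_ifs
      · rw [one_mul, abs_of_nonneg a5]; exact a6
      · simp)
    (fun h k w ω ω' hω => by
      have e1 : FCA_J g ω k.1 = FCA_J g ω' k.1 := by
        funext l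
        simp only [FCA_J]
        rw [hω (g l) (mem_insert_of_mem (mem_image_of_mem g (mem_univ l)))]
      have e2 : ω h' = ω' h' := hω h' (mem_insert_self _ _)
      simp only [e1, e2])
  have hcard : (Fintype.card ((Fin r → Fin b → Bool) × (Fin b → Bool)) : ℝ) = 2 ^ (b * (r + 1)) := by
    rw [Fintype.card_prod]
    simp only [Fintype.card_pi, Fintype.card_bool, prod_const, card_univ, Fintype.card_fin]
    push_cast
    rw [← pow_mul, ← pow_add]
    congr 1
  have hS : ((#(insert h' (univ.image g)) : ℕ) : ℝ) ≤ r + 1 := by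
    have h1 : #(insert h' (univ.image g)) ≤ r + 1 := by
      refine (card_insert_le _ _).trans ?_
      have := (card_image_le (s := (univ : Finset (Fin r))) (f := g))
      rw [card_univ, Fintype.card_fin] at this
      omega
    exact_mod_cast h1
  rw [hcard] at hBB
  have e1 : ∀ h, Av (fun ω => Av (fun w : Wb c R => (if X ω h' β' = true then 1 else 0) *
      (y1 π X g h β (FCA_J g ω (fun l => X ω (g l)), w (π β)) * FCA_N E β β' (w (π β)) (ω h' (π β'))))) =
      Av (fun ω => lb X h' β' ω * ((∑ u, y1 π X g h β (inf X g ω, u) * FCA_N E β β' u (ω h' (π β'))) / R)) := fun h => by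
    congr 1
    funext ω
    rw [FCA_W c R hR (π β) (fun u => (if X ω h' β' = true then 1 else 0) *
      (y1 π X g h β (FCA_J g ω (fun l => X ω (g l)), u) * FCA_N E β β' u (ω h' (π β')))), ← mul_sum, mul_div_assoc]
    rfl
  have e2 : ∀ h, Av (fun ω => Av (fun w : Wb c R => (if X ω h' β' = true then 1 else 0) *
      (y1 π X g h β (FCA_J g ω (fun l => X ω (g l)), w (π β)) * FCA_N E β β' (w (π β)) (ω h' (π β'))))) -
      Av (fun ω => lb X h' β' ω * (y1 π X g h β (inf X g ω, ω h (π β)) * FCA_N E β β' (ω h (π β)) (ω h' (π β')))) ≤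
      |Av (fun ω => (if X ω h' β' = true then 1 else 0) *
      (y1 π X g h β (FCA_J g ω (fun l => X ω (g l)), ω h (π β)) * FCA_N E β β' (ω h (π β)) (ω h' (π β')))) -
      Av (fun ω => Av (fun w : Wb c R => (if X ω h' β' = true then 1 else 0) *
      (y1 π X g h β (FCA_J g ω (fun l => X ω (g l)), w (π β)) * FCA_N E β β' (w (π β)) (ω h' (π β')))))| := fun h => by
    rw [abs_sub_comm]
    exact le_abs_self _
  have e3 := (sum_le_sum fun h (_ : h ∈ (univ : Finset (Fin n))) => e2 h).trans hBB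
  rw [sum_sub_distrib] at e3
  simp only [e1] at e3
  linarith

/-- step (3) -/
theorem FCA_s3 (hC : CND_stmt) (β β' : Fin b) (h' : Fin n) :
    Av (fun ω => y1 π X g h' β' (inf X g ω, ω h' (π β')) * FCA_G π X E g β β' (inf X g ω) (ω h' (π β'))) =
      (∑ h, Av (fun ω => lb X h' β' ω * ((∑ u, y1 π X g h β (inf X g ω, u) * FCA_N E β β' u (ω h' (π β'))) / R))) / n := by
  classical
  obtain ⟨-, hC2, -⟩ := hC
  have h1 : Av (fun ω => lb X h' β' ω * FCA_G π X E g β β' (inf X g ω) (ω h' (π β'))) =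
      Av (fun ω => y1 π X g h' β' (inf X g ω, ω h' (π β')) * FCA_G π X E g β β' (inf X g ω) (ω h' (π β'))) :=
    hC2 (Om n c R) (Cp r c b R × Fin R) (fun ω => (inf X g ω, ω h' (π β'))) (lb X h' β') (fun k => FCA_G π X E g β β' k.1 k.2)
  rw [← h1, ← FCA_sum, ← FCA_div]
  congr 1
  funext ω
  unfold FCA_G ab
  rw [← mul_sum, ← sum_div, sum_comm, mul_div_assoc]
  congr 1
  have h2 : ∀ u, (∑ h, y1 π X g h β (inf X g ω, u)) / n * FCA_N E β β' u (ω h' (π β')) =
      (∑ h, y1 π X g h β (inf X g ω, u) * FCA_N E β β' u (ω h' (π β'))) / n := fun u => by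
    rw [div_mul_eq_mul_div, sum_mul]
  simp only [h2]
  rw [← sum_div, div_div, div_div, mul_comm]

open Classical in
/-- step (4) -/
theorem FCA_s4 (hC : CND_stmt) (hB : BES_stmt) (hn : 1 ≤ n) (hR : 1 ≤ R) (β β' : Fin b) :
    Av (fun ω => (∑ u, ∑ v, (if E β β' u v then 0 else ab π X g (inf X g ω) β u * ab π X g (inf X g ω) β' v)) / (R : ℝ) ^ 2) ≤
      (∑ h', Av (fun ω => y1 π X g h' β' (inf X g ω, ω h' (π β')) * FCA_G π X E g β β' (inf X g ω) (ω h' (π β'))) +
        (Real.sqrt (n * 2 ^ (b * r)) + 2 * r)) / n := by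
  have : Nonempty (Fin R) := ⟨⟨0, hR⟩⟩
  have hn0 : (0 : ℝ) < n := by exact_mod_cast hn
  have hR0 : (0 : ℝ) < R := by exact_mod_cast hR
  have hBB := hB n (Wb c R) (Fin r → Fin b → Bool) (fun ω => fun l => X ω (g l))
    (univ.image g) (fun h ω k w => y1 π X g h β' (FCA_J g ω k, w (π β')) * FCA_G π X E g β β' (FCA_J g ω k) (w (π β')))
    (fun h ω k w => by
      obtain ⟨a1, a2⟩ := FCA_y1 π X g hC h β' (FCA_J g ω k, w (π β'))
      obtain ⟨a3, a4⟩ := FCA_G0 π X E g hC hn hR β β' (FCA_J g ω k) (w (π β'))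
      rw [abs_of_nonneg (mul_nonneg a1 a3)]
      exact mul_le_one₀ a2 a3 a4)
    (fun h k w ω ω' hω => by
      have e1 : FCA_J g ω k = FCA_J g ω' k := by
        funext l
        simp only [FCA_J]
        rw [hω (g l) (mem_image_of_mem g (mem_univ l))]
      simp only [e1])
  have hcard : (Fintype.card (Fin r → Fin b → Bool) : ℝ) = 2 ^ (b * r) := by
    simp only [Fintype.card_pi, Fintype.card_bool, prod_const, card_univ, Fintype.card_fin]
    push_cast
    rw [← pow_mul]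
  have hS : ((#(univ.image g) : ℕ) : ℝ) ≤ r := by
    have h1 : #(univ.image g) ≤ r := by
      have := (card_image_le (s := (univ : Finset (Fin r))) (f := g))
      rwa [card_univ, Fintype.card_fin] at this
    exact_mod_cast h1
  rw [hcard] at hBB
  -- the left side
  have e0 : ∀ ω : Om n c R, (∑ u, ∑ v, (if E β β' u v then 0 else ab π X g (inf X g ω) β u * ab π X g (inf X g ω) β' v)) / (R : ℝ) ^ 2 =
      (∑ h', Av (fun w : Wb c R => y1 π X g h' β' (FCA_J g ω (fun l => X ω (g l)), w (π β')) *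
        FCA_G π X E g β β' (FCA_J g ω (fun l => X ω (g l))) (w (π β')))) / n := fun ω => by
    have e1 : ∀ h', Av (fun w : Wb c R => y1 π X g h' β' (FCA_J g ω (fun l => X ω (g l)), w (π β')) *
        FCA_G π X E g β β' (FCA_J g ω (fun l => X ω (g l))) (w (π β'))) =
        (∑ v, y1 π X g h' β' (inf X g ω, v) * FCA_G π X E g β β' (inf X g ω) v) / R := fun h' =>
      FCA_W c R hR (π β') (fun v => y1 π X g h' β' (inf X g ω, v) * FCA_G π X E g β β' (inf X g ω) v)
    simp only [e1]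
    have e2 : ∀ v, ∑ h', y1 π X g h' β' (inf X g ω, v) * FCA_G π X E g β β' (inf X g ω) v =
        n * (ab π X g (inf X g ω) β' v * FCA_G π X E g β β' (inf X g ω) v) := fun v => by
      rw [← sum_mul]
      unfold ab
      field_simp
    have e3 : ∀ v, ∑ u, (if E β β' u v then 0 else ab π X g (inf X g ω) β u * ab π X g (inf X g ω) β' v) =
        R * (ab π X g (inf X g ω) β' v * FCA_G π X E g β β' (inf X g ω) v) := fun v => by
      have e4 : R * FCA_G π X E g β β' (inf X g ω) v = ∑ u, ab π X g (inf X g ω) β u * FCA_N E β β' u v := by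
        unfold FCA_G
        field_simp
      calc ∑ u, (if E β β' u v then 0 else ab π X g (inf X g ω) β u * ab π X g (inf X g ω) β' v)
          = ab π X g (inf X g ω) β' v * ∑ u, ab π X g (inf X g ω) β u * FCA_N E β β' u v := by
            rw [mul_sum]
            refine sum_congr rfl fun u _ => ?_
            unfold FCA_N
            split_ifs
            · ring
            · ring
        _ = R * (ab π X g (inf X g ω) β' v * FCA_G π X E g β β' (inf X g ω) v) := by rw [← e4]; ring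
    have eR : (∑ h', (∑ v, y1 π X g h' β' (inf X g ω, v) * FCA_G π X E g β β' (inf X g ω) v) / R) / n =
        (∑ v, ab π X g (inf X g ω) β' v * FCA_G π X E g β β' (inf X g ω) v) / R := by
      rw [← sum_div, sum_comm]
      simp only [e2]
      rw [← mul_sum]
      field_simp
    have eL : (∑ u, ∑ v, (if E β β' u v then 0 else ab π X g (inf X g ω) β u * ab π X g (inf X g ω) β' v)) / (R : ℝ) ^ 2 =
        (∑ v, ab π X g (inf X g ω) β' v * FCA_G π X E g β β' (inf X g ω) v) / R := by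
      rw [sum_comm]
      simp only [e3]
      rw [← mul_sum]
      field_simp
    rw [eR, eL]
  simp only [e0]
  rw [FCA_div, FCA_sum]
  refine div_le_div_of_nonneg_right ?_ hn0.le
  have e2 : ∀ h', Av (fun ω => Av (fun w : Wb c R => y1 π X g h' β' (FCA_J g ω (fun l => X ω (g l)), w (π β')) *
        FCA_G π X E g β β' (FCA_J g ω (fun l => X ω (g l))) (w (π β')))) -
      Av (fun ω => y1 π X g h' β' (inf X g ω, ω h' (π β')) * FCA_G π X E g β β' (inf X g ω) (ω h' (π β'))) ≤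
      |Av (fun ω => y1 π X g h' β' (FCA_J g ω (fun l => X ω (g l)), ω h' (π β')) *
        FCA_G π X E g β β' (FCA_J g ω (fun l => X ω (g l))) (ω h' (π β'))) -
      Av (fun ω => Av (fun w : Wb c R => y1 π X g h' β' (FCA_J g ω (fun l => X ω (g l)), w (π β')) *
        FCA_G π X E g β β' (FCA_J g ω (fun l => X ω (g l))) (w (π β'))))| := fun h' => by
    rw [abs_sub_comm]
    exact le_abs_self _
  have e3 := (sum_le_sum fun h (_ : h ∈ (univ : Finset (Fin n))) => e2 h).trans hBB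
  rw [sum_sub_distrib] at e3
  linarith

end main

theorem FCA (h1 : CND_stmt) (h2 : BES_stmt) : FCA_stmt := by
  classical
  intro n b c R r π X E g hn hR hE β β' hβ
  have hn0 : (0 : ℝ) < n := by exact_mod_cast hn
  have hR0 : (0 : ℝ) < R := by exact_mod_cast hR
  have s4 := FCA_s4 π X E g h1 h2 hn hR β β'
  -- the squares
  obtain ⟨a, ha⟩ : ∃ a : Fin n → Fin n → ℝ, a = fun h' h =>
    Av fun ω => (y2 π X g h' h β (inf X g ω, (ω h', X ω h'), ω h (π β)) - y1 π X g h β (inf X g ω, ω h (π β))) ^ 2 := ⟨_, rfl⟩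
  have ha0 : ∀ h' h, 0 ≤ a h' h := fun h' h => by
    rw [ha]
    exact FCA_nonneg _ fun ω => sq_nonneg _
  have s3 : ∀ h', Av (fun ω => y1 π X g h' β' (inf X g ω, ω h' (π β')) * FCA_G π X E g β β' (inf X g ω) (ω h' (π β'))) ≤
      ((∑ h, ((if h = h' then 1 else 0) + Real.sqrt (a h' h))) + (Real.sqrt (n * 2 ^ (b * (r + 1))) + 2 * (r + 1))) / n := fun h' => by
    rw [FCA_s3 π X E g h1 β β' h']
    refine div_le_div_of_nonneg_right ((FCA_s2 π X E g h1 h2 hn hR β β' h').trans ?_) hn0.le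
    have := sum_le_sum fun h (_ : h ∈ (univ : Finset (Fin n))) => FCA_s1 π X E g h1 hE β β' hβ h h'
    have h5 : ∀ h, Real.sqrt (a h' h) = Real.sqrt (Av fun ω =>
      (y2 π X g h' h β (inf X g ω, (ω h', X ω h'), ω h (π β)) - y1 π X g h β (inf X g ω, ω h (π β))) ^ 2) := fun h => by rw [ha]
    simp only [h5]
    linarith
  -- Cauchy-Schwarz
  have hcs : ∑ h', ∑ h, Real.sqrt (a h' h) ≤ (n : ℝ) ^ 2 * Real.sqrt (Dl π X g) := by
    have c1 : (∑ p : Fin n × Fin n, Real.sqrt (a p.1 p.2)) ^ 2 ≤ (n : ℝ) ^ 2 * ∑ p : Fin n × Fin n, a p.1 p.2 := by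
      have := sq_sum_le_card_mul_sum_sq (s := (univ : Finset (Fin n × Fin n))) (f := fun p => Real.sqrt (a p.1 p.2))
      simp only [card_univ, Fintype.card_prod, Fintype.card_fin] at this
      calc (∑ p : Fin n × Fin n, Real.sqrt (a p.1 p.2)) ^ 2 ≤ ((n * n : ℕ) : ℝ) * ∑ p : Fin n × Fin n, Real.sqrt (a p.1 p.2) ^ 2 := this
        _ = (n : ℝ) ^ 2 * ∑ p : Fin n × Fin n, a p.1 p.2 := by
            push_cast
            rw [← sq]
            congr 1
            exact sum_congr rfl fun p _ => Real.sq_sqrt (ha0 _ _)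
    have c2 : ∑ p : Fin n × Fin n, a p.1 p.2 ≤ (n : ℝ) ^ 2 * Dl π X g := by
      unfold Dl
      rw [mul_div_cancel₀ _ (by positivity), Fintype.sum_prod_type]
      refine sum_le_sum fun h' _ => sum_le_sum fun h _ => ?_
      rw [ha]
      exact single_le_sum (f := fun β => Av fun ω => (y2 π X g h' h β (inf X g ω, (ω h', X ω h'), ω h (π β)) -
        y1 π X g h β (inf X g ω, ω h (π β))) ^ 2) (fun β _ => FCA_nonneg _ fun ω => sq_nonneg _) (mem_univ β)
    have hD : 0 ≤ Dl π X g := by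
      unfold Dl
      exact div_nonneg (sum_nonneg fun h' _ => sum_nonneg fun h _ => sum_nonneg fun β _ => FCA_nonneg _ fun ω => sq_nonneg _) (by positivity)
    rw [← Fintype.sum_prod_type (fun p : Fin n × Fin n => Real.sqrt (a p.1 p.2))]
    have c3 : (∑ p : Fin n × Fin n, Real.sqrt (a p.1 p.2)) ^ 2 ≤ ((n : ℝ) ^ 2 * Real.sqrt (Dl π X g)) ^ 2 := by
      rw [mul_pow, Real.sq_sqrt hD]
      calc _ ≤ (n : ℝ) ^ 2 * ∑ p : Fin n × Fin n, a p.1 p.2 := c1
        _ ≤ (n : ℝ) ^ 2 * ((n : ℝ) ^ 2 * Dl π X g) := mul_le_mul_of_nonneg_left c2 (by positivity)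
        _ = ((n : ℝ) ^ 2) ^ 2 * Dl π X g := by ring
    exact (pow_le_pow_iff_left₀ (sum_nonneg fun p _ => Real.sqrt_nonneg _) (by positivity) two_ne_zero).1 c3
  -- the sum over `h'`
  have hsum : ∑ h', Av (fun ω => y1 π X g h' β' (inf X g ω, ω h' (π β')) * FCA_G π X E g β β' (inf X g ω) (ω h' (π β'))) ≤
      (n + (n : ℝ) ^ 2 * Real.sqrt (Dl π X g) + n * (Real.sqrt (n * 2 ^ (b * (r + 1))) + 2 * (r + 1))) / n := by
    refine (sum_le_sum fun h' _ => s3 h').trans ?_
    rw [← sum_div]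
    refine div_le_div_of_nonneg_right ?_ hn0.le
    rw [sum_add_distrib]
    have d1 : ∑ h' : Fin n, ∑ h : Fin n, ((if h = h' then (1 : ℝ) else 0) + Real.sqrt (a h' h)) =
        n + ∑ h' : Fin n, ∑ h : Fin n, Real.sqrt (a h' h) := by
      simp only [sum_add_distrib]
      congr 1
      simp
    have d2 : ∑ _h' : Fin n, (Real.sqrt (n * 2 ^ (b * (r + 1))) + 2 * ((r : ℝ) + 1)) =
        n * (Real.sqrt (n * 2 ^ (b * (r + 1))) + 2 * (r + 1)) := by
      rw [sum_const, card_univ, Fintype.card_fin, nsmul_eq_mul]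
    rw [d1, d2]
    linarith
  refine s4.trans ?_
  -- square roots
  have q1 : Real.sqrt (n * 2 ^ (b * (r + 1))) = n * Real.sqrt (2 ^ (b * (r + 1)) / n) := by
    have : (n : ℝ) * 2 ^ (b * (r + 1)) = (n : ℝ) ^ 2 * (2 ^ (b * (r + 1)) / n) := by field_simp
    rw [this, Real.sqrt_mul (by positivity), Real.sqrt_sq hn0.le]
  have q2 : Real.sqrt (n * 2 ^ (b * r)) ≤ n * Real.sqrt (2 ^ (b * (r + 1)) / n) := by
    rw [← q1]
    refine Real.sqrt_le_sqrt ?_
    refine mul_le_mul_of_nonneg_left ?_ hn0.le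
    exact pow_le_pow_right₀ (by norm_num) (Nat.mul_le_mul_left b (Nat.le_succ r))
  calc (∑ h', Av (fun ω => y1 π X g h' β' (inf X g ω, ω h' (π β')) * FCA_G π X E g β β' (inf X g ω) (ω h' (π β'))) +
        (Real.sqrt (n * 2 ^ (b * r)) + 2 * r)) / n
      ≤ ((n + (n : ℝ) ^ 2 * Real.sqrt (Dl π X g) + n * (n * Real.sqrt (2 ^ (b * (r + 1)) / n) + 2 * (r + 1))) / n +
        (n * Real.sqrt (2 ^ (b * (r + 1)) / n) + 2 * r)) / n := by
        refine div_le_div_of_nonneg_right ?_ hn0.le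
        rw [q1] at hsum
        linarith
    _ = Real.sqrt (Dl π X g) + 2 * Real.sqrt (2 ^ (b * (r + 1)) / n) + (4 * r + 3) / n := by
        field_simp
        ring

end Pool.Agent.DK
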