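import Pool.Agent.helper63.HF.CLZ

/-!
# Project DK (MP_bf63dc_nt): cliques of forms with fixed places and random shifts
-/

set_option autoImplicit false

namespace Pool.Agent.DK

open Finset Pool.Agent.AT Pool.Agent.IT Pool.Agent.HF

/-- the slope of the type `β` -/
def sl (a b : ℕ) (β : Fin 4) : ℕ := if β.val < 2 then b else a

/-- the residue of the type `β` -/
def rs (h₀ h₁ : ℤ) (β : Fin 4) : ℤ := if β.val < 2 then h₀ else h₁

/-- a large clique -/
def Lcq {n : ℕ} (a b : ℕ) (q : Fin n × Fin 4 → ℤ) (J : Finset (Fin n × Fin 4)) : Prop :=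
  (1 / 4 + 1 / 500000 : ℝ) * ((n : ℝ) * (4 : ℕ)) ≤ #J ∧ ∀ x ∈ J, ∀ y ∈ J, (sl a b x.2, q x) ≠ (sl a b y.2, q y) → Pair (sl a b x.2, q x) (sl a b y.2, q y)

open Classical in
/-- for fixed places almost all choices of the shifts give a large clique -/
theorem CLF (hQ : ∀ k : ℕ, 1 ≤ k → Qk k) (a b : ℕ) (ha : 1 ≤ a) (hb : 1 ≤ b) (n : ℕ) (η : ℝ) (hn : 1 ≤ n) (hη : 0 < η) :
    ∃ D L : ℕ, 1 ≤ D ∧ 1 ≤ L ∧ ∀ (h₀ h₁ : ℤ), IsCoprime h₀ (D : ℤ) → IsCoprime h₁ (D : ℤ) → ∀ Q : Fin n × Fin 4 → Fin L → ℤ,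
      (∀ x, Function.Injective (Q x)) → (∀ x l, (D : ℤ) ∣ Q x l - rs h₀ h₁ x.2) →
      (#{c : Fin n × Fin 4 → Fin L | ¬ ∃ J, Lcq a b (fun x => Q x (c x)) J} : ℝ) ≤ η * (L : ℝ) ^ (n * 4) := by
  obtain ⟨C, δ, hC, hδ, -, hQ⟩ := hQ (n * 4) (by omega)
  obtain ⟨L, hL1, hL⟩ : ∃ L : ℕ, 1 ≤ L ∧ C * (L : ℝ) ^ (-δ) ≤ η := by
    have h1 : Filter.Tendsto (fun L : ℕ => C * (L : ℝ) ^ (-δ)) Filter.atTop (nhds (C * 0)) :=
      ((tendsto_rpow_neg_atTop hδ).comp tendsto_natCast_atTop_atTop).const_mul C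
    rw [mul_zero] at h1
    obtain ⟨L, h2, h3⟩ := ((h1.eventually (gt_mem_nhds hη)).and
      (Filter.eventually_ge_atTop 1)).exists
    exact ⟨L, h3, h2.le⟩
  obtain ⟨D, hDdef⟩ : ∃ D : ℕ, D = a * b * Nat.factorial (n * 4) := ⟨_, rfl⟩
  have hD : 1 ≤ D := by
    rw [hDdef]
    have := Nat.factorial_pos (n * 4)
    exact Nat.mul_pos (Nat.mul_pos ha hb) this
  refine ⟨D, L, hD, hL1, ?_⟩
  intro h₀ h₁ hc₀ hc₁ Q hinj hsd
  have hslpos : ∀ β, 0 < sl a b β := by
    intro β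
    unfold sl
    split_ifs
    · exact hb
    · exact ha
  have hslP : ∀ p : ℕ, p.Prime → ¬ p ∣ D → ∀ β, ¬ p ∣ sl a b β := by
    intro p hp hpD β hβ
    unfold sl at hβ
    split_ifs at hβ
    · exact hpD (by rw [hDdef]; exact (hβ.mul_left a).mul_right _)
    · exact hpD (by rw [hDdef]; exact (hβ.mul_right b).mul_right _)
  have hsc : ∀ β, IsCoprime (rs h₀ h₁ β) (D : ℤ) := by
    intro β
    unfold rs
    split_ifs
    · exact hc₀
    · exact hc₁
  obtain ⟨σ, hσ⟩ : ∃ σ : Fin (n * 4) ≃ Fin n × Fin 4, σ = finProdFinEquiv.symm := ⟨_, rfl⟩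
  obtain ⟨F, hFdef⟩ : ∃ F : Fin (n * 4) → Finset (ℕ × ℤ), F = fun i => (univ : Finset (Fin L)).image (fun l => (sl a b (σ i).2, Q (σ i) l)) := ⟨_, rfl⟩
  have hF : ∀ i, #(F i) = L := by
    intro i
    rw [hFdef]
    dsimp only
    rw [Finset.card_image_of_injective _ (fun u v h => hinj _ (congrArg Prod.snd h)), card_univ, Fintype.card_fin]
  have h1 := hQ F L hL1 (fun i => (hF i).ge) (by
    intro i x hx
    rw [hFdef] at hx
    obtain ⟨u, -, rfl⟩ := Finset.mem_image.1 hx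
    exact hslpos _)
  obtain ⟨f, hf⟩ : ∃ f : (Fin n × Fin 4 → Fin L) → Fin (n * 4) → ℕ × ℤ, f = fun c i => (sl a b (σ i).2, Q (σ i) (c (σ i))) := ⟨_, rfl⟩
  have hadm : ∀ c, Adm (f c) := by
    intro c
    refine CLZ_adm (n * 4) D (f c) ?_ (fun i => rs h₀ h₁ (σ i).2) (fun i => hsc _) ?_
    · intro p hp hpD
      refine ⟨?_, ?_⟩
      · by_contra hlt
        apply hpD
        rw [hDdef]
        exact ((Nat.dvd_factorial hp.pos (not_lt.1 hlt)).mul_left _)
      · intro i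
        rw [hf]
        exact hslP p hp hpD _
    · intro i
      rw [hf]
      exact hsd _ _
  have h2 : #{c : Fin n × Fin 4 → Fin L | ¬ ∃ J, Lcq a b (fun x => Q x (c x)) J} ≤ #{f ∈ Fintype.piFinset F | Adm f ∧ ¬ Many f} := by
    refine Finset.card_le_card_of_injOn f ?_ ?_
    · intro c hc
      have hc' := (Finset.mem_filter.1 (Finset.mem_coe.1 hc)).2
      refine Finset.mem_coe.2 (Finset.mem_filter.2 ⟨?_, hadm c, ?_⟩)
      · rw [Fintype.mem_piFinset]
        intro i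
        rw [hFdef, hf]
        exact Finset.mem_image_of_mem _ (mem_univ (c (σ i)))
      · intro hM
        obtain ⟨J, hJ1, hJ2⟩ := CLZ_J (n * 4) (f c) hM
        have hpair : ∀ i ∈ J, ∀ j ∈ J, f c i ≠ f c j → Pair (f c i) (f c j) := by
          intro i hi j hj hij
          refine PRT (f c i) (f c j) ?_ ?_ hij ?_ (hJ2 i hi j hj)
          · rw [hf]
            exact hslpos _
          · rw [hf]
            exact hslpos _
          · intro p hp
            obtain ⟨m, hm⟩ := hadm c p hp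
            refine ⟨m, fun t => ?_⟩
            fin_cases t
            · exact hm i
            · exact hm j
        refine hc' ⟨J.map σ.toEmbedding, ?_, ?_⟩
        · rw [Finset.card_map]
          have h3 : ((n * 4 : ℕ) : ℝ) = (n : ℝ) * (4 : ℕ) := by push_cast; ring
          rw [h3] at hJ1
          exact hJ1.le
        · intro x hx y hy
          obtain ⟨i, hi, rfl⟩ := Finset.mem_map.1 hx
          obtain ⟨j, hj, rfl⟩ := Finset.mem_map.1 hy
          have := hpair i hi j hj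
          rw [hf] at this
          exact this
    · intro c _ c' _ h
      funext x
      have h3 := congrFun h (σ.symm x)
      rw [hf] at h3
      dsimp only at h3
      rw [Equiv.apply_symm_apply] at h3
      exact hinj _ (congrArg Prod.snd h3)
  have h3 : ∏ i : Fin (n * 4), (#(F i) : ℝ) = (L : ℝ) ^ (n * 4) := by
    rw [Finset.prod_congr rfl (fun i _ => by rw [hF i]), Finset.prod_const, Finset.card_univ, Fintype.card_fin]
  rw [h3] at h1
  have hP : (0 : ℝ) ≤ (L : ℝ) ^ (n * 4) := by positivity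
  refine (Nat.cast_le.2 h2).trans (h1.trans ?_)
  calc C * (L : ℝ) ^ (n * 4) * (L : ℝ) ^ (-δ) = C * (L : ℝ) ^ (-δ) * (L : ℝ) ^ (n * 4) := by ring
    _ ≤ η * (L : ℝ) ^ (n * 4) := mul_le_mul_of_nonneg_right hL hP

end Pool.Agent.DK
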