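import Pool.Agent.helper19.HF.SpecA

/-!
# Project DK (MP_bf63dc_nt): fractional cliques with several types of forms at the same place, definitions

The types `β : Fin b` are distributed over `c` coordinates by `π : Fin b → Fin c`; a sample chooses for every index `h` and every coordinate a place `< R`; at a place there are the forms of all types of the coordinate.
-/

set_option autoImplicit false

namespace Pool.Agent.DK

open Finset Pool.Agent.HF

/-- the information at `r` indices: the places and the labels -/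
abbrev Cp (r c b R : ℕ) : Type := Fin r → Wb c R × (Fin b → Bool)

/-- the label -/
noncomputable def lb {n b c R : ℕ} (X : Om n c R → Fin n → Fin b → Bool) (h : Fin n) (β : Fin b) (ω : Om n c R) : ℝ := if X ω h β = true then 1 else 0

/-- the information of a sample at the indices `g` -/
def inf {n b c R r : ℕ} (X : Om n c R → Fin n → Fin b → Bool) (g : Fin r → Fin n) (ω : Om n c R) : Cp r c b R := fun l => (ω (g l), X ω (g l))

/-- the probability that the form `(h, β)` is in the clique, given the information and the place -/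
noncomputable def y1 {n b c R r : ℕ} (π : Fin b → Fin c) (X : Om n c R → Fin n → Fin b → Bool) (g : Fin r → Fin n) (h : Fin n) (β : Fin b) : Cp r c b R × Fin R → ℝ :=
  vl (fun ω => (inf X g ω, ω h (π β))) (lb X h β)

/-- the same, given also the information at one more index `h'` -/
noncomputable def y2 {n b c R r : ℕ} (π : Fin b → Fin c) (X : Om n c R → Fin n → Fin b → Bool) (g : Fin r → Fin n) (h' h : Fin n) (β : Fin b) :
    Cp r c b R × (Wb c R × (Fin b → Bool)) × Fin R → ℝ :=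
  vl (fun ω => (inf X g ω, (ω h', X ω h'), ω h (π β))) (lb X h β)

/-- the gain of energy by one more index -/
noncomputable def Dl {n b c R r : ℕ} (π : Fin b → Fin c) (X : Om n c R → Fin n → Fin b → Bool) (g : Fin r → Fin n) : ℝ :=
  (∑ h', ∑ h, ∑ β, Av fun ω => (y2 π X g h' h β (inf X g ω, (ω h', X ω h'), ω h (π β)) - y1 π X g h β (inf X g ω, ω h (π β))) ^ 2) / (n : ℝ) ^ 2

/-- the function of the type `β`, given the information `d` -/
noncomputable def ab {n b c R r : ℕ} (π : Fin b → Fin c) (X : Om n c R → Fin n → Fin b → Bool) (g : Fin r → Fin n) (d : Cp r c b R) (β : Fin b) (u : Fin R) : ℝ :=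
  (∑ h, y1 π X g h β (d, u)) / n

def ENP_stmt : Prop := ∀ (n b c R m : ℕ) (π : Fin b → Fin c) (X : Om n c R → Fin n → Fin b → Bool), 1 ≤ n → 1 ≤ R → 1 ≤ m →
  ∃ r : ℕ, r < m ∧ ∑ g : Fin r → Fin n, Dl π X g ≤ b / m * (n : ℝ) ^ r

open Classical in
def FCA_stmt : Prop := ∀ (n b c R r : ℕ) (π : Fin b → Fin c) (X : Om n c R → Fin n → Fin b → Bool) (E : Fin b → Fin b → Fin R → Fin R → Prop) (g : Fin r → Fin n), 1 ≤ n → 1 ≤ R →
  (∀ ω h h' β β', h ≠ h' → π β ≠ π β' → X ω h β = true → X ω h' β' = true → E β β' (ω h (π β)) (ω h' (π β'))) → ∀ β β' : Fin b, π β ≠ π β' →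
  Av (fun ω => (∑ u, ∑ v, (if E β β' u v then 0 else ab π X g (inf X g ω) β u * ab π X g (inf X g ω) β' v)) / (R : ℝ) ^ 2) ≤
    Real.sqrt (Dl π X g) + 2 * Real.sqrt (2 ^ (b * (r + 1)) / n) + (4 * r + 3) / n

def FCM_stmt : Prop := ∀ (n b c R r : ℕ) (π : Fin b → Fin c) (X : Om n c R → Fin n → Fin b → Bool) (g : Fin r → Fin n), 1 ≤ n → 1 ≤ R →
  (∑ h, ∑ β, Av (lb X h β)) / n - b * (Real.sqrt (2 ^ (b * r) / n) + 2 * r / n) ≤
    Av (fun ω => ∑ β, (∑ u, ab π X g (inf X g ω) β u) / R)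

open Classical in
/-- FRACTIONAL CLIQUES with types: a sample clique contains at most one form at each place -/
def FCP_stmt : Prop := ∀ (b c : ℕ) (π : Fin b → Fin c) (ε : ℝ), 1 ≤ b → 0 < ε → ε ≤ 1 → ∃ (n : ℕ) (η : ℝ), 1 ≤ n ∧ 0 < η ∧
  ∀ (R : ℕ) (α : ℝ) (E : Fin b → Fin b → ℕ → ℕ → Prop), 1 ≤ R → 0 ≤ α →
  (#{ω : Om n c R | ¬ ∃ J : Finset (Fin n × Fin b), α * (n * b) ≤ #J ∧
    (∀ x ∈ J, ∀ y ∈ J, π x.2 ≠ π y.2 → E x.2 y.2 (ω x.1 (π x.2)) (ω y.1 (π y.2))) ∧
    (∀ x ∈ J, ∀ y ∈ J, x.1 = y.1 → π x.2 = π y.2 → x.2 = y.2)} : ℝ) ≤ η * (R : ℝ) ^ (n * c) →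
  ∃ a : Fin b → ℕ → ℝ, (∀ β u, 0 ≤ a β u ∧ a β u ≤ 1) ∧ (α - ε) * (b * R) ≤ ∑ β, ∑ u ∈ range R, a β u ∧
    (∀ β β', π β ≠ π β' → ∑ u ∈ range R, ∑ v ∈ range R, (if E β β' u v then 0 else a β u * a β' v) ≤ ε * (R : ℝ) ^ 2) ∧
    (∀ β β' u, β ≠ β' → π β = π β' → a β u + a β' u ≤ 1)

end Pool.Agent.DK
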